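import Pool.Agent.H36.Cis

open Pool.Agent.H38.NP Pool.Agent.H36.Cis

theorem Pool.Agent.Results.MP_117856_lc.Hard.result :
    CoNPHard (lang fun p : ℕ × List (ℕ × ℕ) => Equistable (graphOf p.1 p.2)) :=
  (hard (fun _ G => Equistable G) (fun _ _ h0 h =>
    have := Fin.pos_iff_nonempty.1 h0
    h.edgeStrong.equistable) fun _ _ h => h.triangle).coNPHard fun _ _ => Iff.rfl
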